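import Mathlib

/-!
# A subgroup of the circle that is not characterized by star-convergence along any ideal

Let `f : ℝ → ℚ` be a rational linear map with `f 1 = 0` which is nonzero on some subseries of every
rapidly decreasing series, and let `H` be the image of its kernel in the circle.  The kernel has
countable index, so it meets every dense `G_δ` set.  Suppose that `H` is characterized by an ideal and
a sequence `a`.  Take an irrational `t` in `H` and `t'` in `H` that is extremely well approximated by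
multiples `j_m t` of `t`.  Then for a sparse sequence `j_m` all the subseries of the series with the
terms `t' - j_m t` are in the characterized subgroup, which is a contradiction.
-/

set_option autoImplicit false

namespace Pool.Agent.Results.MP_8013b9_lc.NotStarCharacterized

open Set Filter Topology Cardinal

/-- Proper ideals on the natural numbers that contain all finite sets. -/
structure IsIdeal (I : Set (Set ℕ)) : Prop where
  sub : ∀ A ∈ I, ∀ B, B ⊆ A → B ∈ I
  union : ∀ A ∈ I, ∀ B ∈ I, A ∪ B ∈ I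
  fin : ∀ A : Set ℕ, A.Finite → A ∈ I
  proper : Set.univ ∉ I

/-- The set of the points `x` of the circle such that `(a_n x)` is `I*`-convergent to zero: for some
`S` in `I`, the sequence `(a_n x)`, restricted to the complement of `S`, converges to zero. -/
def Hstar (a : ℕ → ℤ) (I : Set (Set ℕ)) : Set (AddCircle (1 : ℝ)) :=
  {x | ∃ S ∈ I, Tendsto (fun n => a n • x) (atTop ⊓ 𝓟 Sᶜ) (𝓝 0)}

/-! ## A linear functional -/

theorem card_span_lt {S : Set ℝ} (hS : Cardinal.mk S < 𝔠) (hne : S.Nonempty) : Cardinal.mk (Submodule.span ℚ S) < 𝔠 := by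
  have : Nonempty S := hne.to_subtype
  have h1 : Function.Surjective (fun l : S →₀ ℚ =>
      (⟨Finsupp.linearCombination ℚ (Subtype.val : S → ℝ) l, by
        have := Finsupp.range_linearCombination ℚ (v := (Subtype.val : S → ℝ))
        rw [Subtype.range_coe] at this
        rw [← this]; exact ⟨l, rfl⟩⟩ : Submodule.span ℚ S)) := by
    rintro ⟨x, hx⟩
    have := Finsupp.range_linearCombination ℚ (v := (Subtype.val : S → ℝ))
    rw [Subtype.range_coe] at this
    rw [← this] at hx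
    obtain ⟨l, hl⟩ := hx
    exact ⟨l, Subtype.ext hl⟩
  refine (Cardinal.mk_le_of_surjective h1).trans_lt ?_
  rw [Cardinal.mk_finsupp_of_infinite']
  refine max_lt hS ?_
  rw [Cardinal.mk_eq_aleph0 ℚ]
  exact Cardinal.aleph0_lt_continuum

/-- A choice of independent representatives. -/
theorem exists_independent {ι : Type} (hι : Cardinal.mk ι ≤ 𝔠) (P : ι → Set ℝ) (hP : ∀ i, 𝔠 ≤ Cardinal.mk (P i)) :
    ∃ (r : ι → ι → Prop) (_ : IsWellOrder ι r) (h : ι → ℝ), ∀ i, h i ∈ P i ∧
      h i ∉ Submodule.span ℚ (insert 1 {y | ∃ j, r j i ∧ h j = y}) := by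
  classical
  obtain ⟨r, wo, hr⟩ := Cardinal.ord_eq ι
  refine ⟨r, wo, IsWellFounded.fix r (fun i prev => Classical.epsilon fun x => x ∈ P i ∧
    x ∉ Submodule.span ℚ (insert 1 {y | ∃ j, ∃ hj : r j i, prev j hj = y})), ?_⟩
  intro i
  rw [IsWellFounded.fix_eq]
  set h : ι → ℝ := IsWellFounded.fix r (fun i prev => Classical.epsilon fun x => x ∈ P i ∧
    x ∉ Submodule.span ℚ (insert 1 {y | ∃ j, ∃ hj : r j i, prev j hj = y})) with hh
  have hset : {y | ∃ j, ∃ _ : r j i, h j = y} = {y | ∃ j, r j i ∧ h j = y} := by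
    ext y; simp only [mem_setOf_eq, exists_prop]
  rw [hset]
  refine Classical.epsilon_spec (p := fun x => x ∈ P i ∧
    x ∉ Submodule.span ℚ (insert 1 {y | ∃ j, r j i ∧ h j = y})) ?_
  by_contra hcon
  push Not at hcon
  have hsub : P i ⊆ (Submodule.span ℚ (insert 1 {y | ∃ j, r j i ∧ h j = y}) : Set ℝ) := hcon
  have hcard : Cardinal.mk (insert (1 : ℝ) {y | ∃ j, r j i ∧ h j = y} : Set ℝ) < 𝔠 := by
    refine (Cardinal.mk_insert_le).trans_lt ?_
    refine Cardinal.add_lt_of_lt Cardinal.aleph0_le_continuum ?_ (Cardinal.one_lt_aleph0.trans_le Cardinal.aleph0_le_continuum)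
    have h1 : {y | ∃ j, r j i ∧ h j = y} = h '' {j | r j i} := by
      ext y; simp only [mem_setOf_eq, mem_image]
    rw [h1]
    refine Cardinal.mk_image_le.trans_lt ?_
    have h2 := Cardinal.card_typein_lt (r := r) i hr
    rw [Ordinal.card_typein] at h2
    exact h2.trans_le hι
  have h1 := card_span_lt hcard ⟨1, mem_insert _ _⟩
  exact absurd ((hP i).trans (Cardinal.mk_le_mk_of_subset hsub)) (not_le.2 h1)

theorem linInd {ι : Type} (r : ι → ι → Prop) [IsWellOrder ι r] (h : ι → ℝ)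
    (hh : ∀ i, h i ∉ Submodule.span ℚ (insert 1 {y | ∃ j, r j i ∧ h j = y})) :
    LinearIndependent ℚ (fun o : Option ι => o.elim (1 : ℝ) h) := by
  classical
  let _ : LinearOrder ι := linearOrderOfSTO r
  rw [linearIndependent_iff']
  intro s g hsum
  by_contra hcon
  push Not at hcon
  obtain ⟨o, hos, ho⟩ := hcon
  set s' := s.filter fun o => g o ≠ 0 with hs'
  have hsum' : ∑ o ∈ s', g o • (o.elim (1 : ℝ) h) = 0 := by
    rw [← hsum, hs', Finset.sum_filter]
    refine Finset.sum_congr rfl fun x _ => ?_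
    split_ifs with hx
    · rfl
    · push Not at hx
      rw [hx, zero_smul]
  let t : Finset ι := s'.preimage some (fun _ _ _ _ h => Option.some_injective _ h)
  by_cases ht : t.Nonempty
  · obtain ⟨i, hi, hmax⟩ := t.exists_max_image id ht
    have hi' : some i ∈ s' := Finset.mem_preimage.1 hi
    have hgi : g (some i) ≠ 0 := (Finset.mem_filter.1 hi').2
    rw [← Finset.add_sum_erase _ _ hi'] at hsum'
    apply hh i
    have h1 : ∑ o ∈ s'.erase (some i), g o • (o.elim (1 : ℝ) h) ∈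
        Submodule.span ℚ (insert 1 {y | ∃ j, r j i ∧ h j = y}) := by
      refine Submodule.sum_mem _ fun o ho => Submodule.smul_mem _ _ ?_
      rw [Finset.mem_erase] at ho
      cases o with
      | none => exact Submodule.subset_span (mem_insert _ _)
      | some j =>
        refine Submodule.subset_span (mem_insert_of_mem _ ⟨j, ?_, rfl⟩)
        have hj : j ∈ t := Finset.mem_preimage.2 ho.2
        have h2 : j ≤ i := hmax j hj
        have h3 : j ≠ i := fun h => ho.1 (by rw [h])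
        exact lt_of_le_of_ne h2 h3
    have h2 : h i = (g (some i))⁻¹ • (-∑ o ∈ s'.erase (some i), g o • (o.elim (1 : ℝ) h)) := by
      rw [eq_inv_smul_iff₀ hgi]
      exact eq_neg_of_add_eq_zero_left hsum'
    rw [h2]
    exact Submodule.smul_mem _ _ (Submodule.neg_mem _ h1)
  · rw [Finset.not_nonempty_iff_eq_empty] at ht
    have h1 : s' = {none} := by
      ext o
      rw [Finset.mem_singleton]
      constructor
      · intro ho
        cases o with
        | none => rfl
        | some j =>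
          exfalso
          have : j ∈ t := Finset.mem_preimage.2 ho
          rw [ht] at this
          exact absurd this (Finset.notMem_empty j)
      · rintro rfl
        have ho' : o ∈ s' := Finset.mem_filter.2 ⟨hos, ho⟩
        cases o with
        | none => exact ho'
        | some j =>
          exfalso
          have : j ∈ t := Finset.mem_preimage.2 ho'
          rw [ht] at this
          exact absurd this (Finset.notMem_empty j)
    rw [h1, Finset.sum_singleton] at hsum'
    have h2 : none ∈ s' := by rw [h1]; exact Finset.mem_singleton_self _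
    have h3 := (Finset.mem_filter.1 h2).2
    simp only [Option.elim] at hsum'
    rw [Rat.smul_def, mul_one] at hsum'
    exact h3 (by exact_mod_cast hsum')

/-- A linear functional that does not vanish identically on any of the sets `P i`. -/
theorem exists_functional {ι : Type} [Nonempty ι] (hι : Cardinal.mk ι ≤ 𝔠) (P : ι → Set ℝ)
    (hP : ∀ i, 𝔠 ≤ Cardinal.mk (P i)) : ∃ f : ℝ →ₗ[ℚ] ℚ, f 1 = 0 ∧ ∀ i, ∃ x ∈ P i, f x = 1 := by
  classical
  obtain ⟨r, wo, h, hh⟩ := exists_independent hι P hP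
  have hv := linInd r h fun i => (hh i).2
  set v : Option ι → ℝ := fun o => o.elim (1 : ℝ) h with hvdef
  let w : Option ι → ℚ := fun o => o.elim 0 fun _ => 1
  let g : Submodule.span ℚ (range v) →ₗ[ℚ] ℚ := (Finsupp.linearCombination ℚ w).comp hv.repr
  obtain ⟨f, hf⟩ := LinearMap.exists_extend g
  have key : ∀ o, f (v o) = w o := by
    intro o
    have h1 : f (v o) = g ⟨v o, Submodule.subset_span ⟨o, rfl⟩⟩ := by
      rw [← hf]; rfl
    rw [h1]
    change Finsupp.linearCombination ℚ w (hv.repr ⟨v o, _⟩) = w o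
    rw [hv.repr_eq_single o _ rfl, Finsupp.linearCombination_single, one_smul]
  exact ⟨f, key none, fun i => ⟨h i, (hh i).1, key (some i)⟩⟩

/-! ## Rapidly decreasing series -/

/-- Rapidly decreasing sequences. -/
def Fast (z : ℕ → ℝ) : Prop := ∀ m, z m ≠ 0 ∧ |z (m + 1)| ≤ |z m| / 3

open Classical in
/-- The terms of a subseries. -/
noncomputable def sub (z : ℕ → ℝ) (A : Set ℕ) (m : ℕ) : ℝ := if m ∈ A then z m else 0

theorem Fast.bound {z : ℕ → ℝ} (hz : Fast z) (k m : ℕ) : |z (k + m)| ≤ |z k| * (1 / 3) ^ m := by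
  induction m with
  | zero => simp
  | succ m ih =>
    have h1 := (hz (k + m)).2
    rw [← add_assoc, pow_succ]
    linarith

theorem tail_bound {z c : ℕ → ℝ} (hz : Fast z) (hc : ∀ m, |c m| ≤ |z m|) (k : ℕ) :
    Summable (fun m => c (m + k)) ∧ |∑' m, c (m + k)| ≤ 3 / 2 * |z k| := by
  have hg : Summable fun m : ℕ => |z k| * (1 / 3 : ℝ) ^ m :=
    (summable_geometric_of_lt_one (by norm_num) (by norm_num)).mul_left _
  have hle : ∀ m, ‖c (m + k)‖ ≤ |z k| * (1 / 3 : ℝ) ^ m := fun m => by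
    rw [Real.norm_eq_abs, add_comm m k]
    exact (hc _).trans (hz.bound k m)
  have hs : Summable fun m => c (m + k) := Summable.of_norm_bounded hg hle
  refine ⟨hs, ?_⟩
  have h1 := tsum_of_norm_bounded (f := fun m => c (m + k)) hg.hasSum hle
  rw [tsum_mul_left, tsum_geometric_of_lt_one (by norm_num) (by norm_num)] at h1
  rw [Real.norm_eq_abs] at h1
  refine h1.trans (le_of_eq ?_)
  norm_num
  ring

theorem sub_le (z : ℕ → ℝ) (A : Set ℕ) (m : ℕ) : |sub z A m| ≤ |z m| := by
  classical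
  unfold sub
  split_ifs
  · exact le_rfl
  · rw [abs_zero]; exact abs_nonneg _

theorem sub_inj {z : ℕ → ℝ} (hz : Fast z) :
    Function.Injective fun A : Set ℕ => ∑' m, sub z A m := by
  classical
  intro A B hAB
  by_contra hne
  have hex : ∃ m, ¬ (m ∈ A ↔ m ∈ B) := by
    by_contra hcon
    push Not at hcon
    exact hne (Set.ext hcon)
  set m := Nat.find hex with hm
  have hm1 : ¬ (m ∈ A ↔ m ∈ B) := Nat.find_spec hex
  have hm2 : ∀ l < m, sub z A l = sub z B l := by
    intro l hl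
    have := Nat.find_min hex hl
    push Not at this
    unfold sub
    simp only [this]
  have hsum : ∀ A : Set ℕ, Summable (sub z A) := fun A => by
    have := (tail_bound hz (sub_le z A) 0).1
    simpa using this
  have h1 : ∀ A : Set ℕ, ∑' l, sub z A l =
      ∑ l ∈ Finset.range m, sub z A l + (sub z A m + ∑' l, sub z A (l + (m + 1))) := by
    intro A
    rw [← (hsum A).sum_add_tsum_nat_add (m + 1), Finset.sum_range_succ]
    ring
  have h2 : ∑ l ∈ Finset.range m, sub z A l = ∑ l ∈ Finset.range m, sub z B l :=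
    Finset.sum_congr rfl fun l hl => hm2 l (Finset.mem_range.1 hl)
  have hAB' : ∑' l, sub z A l = ∑' l, sub z B l := hAB
  rw [h1 A, h1 B, h2, add_right_inj] at hAB'
  have h3 : |∑' l, (sub z A (l + (m + 1)) - sub z B (l + (m + 1)))| ≤ 3 / 2 * |z (m + 1)| := by
    refine (tail_bound (c := fun l => sub z A l - sub z B l) hz (fun l => ?_) (m + 1)).2
    unfold sub
    split_ifs <;> simp
  rw [((tail_bound hz (sub_le z A) (m + 1)).1).tsum_sub ((tail_bound hz (sub_le z B) (m + 1)).1)] at h3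
  have h4 : |sub z A m - sub z B m| = |z m| := by
    unfold sub
    by_cases hA : m ∈ A <;> by_cases hB : m ∈ B
    · exact absurd (iff_of_true hA hB) hm1
    · simp [hA, hB]
    · simp [hA, hB]
    · exact absurd (iff_of_false hA hB) hm1
  have h5 : sub z A m - sub z B m =
      -(∑' l, sub z A (l + (m + 1)) - ∑' l, sub z B (l + (m + 1))) := by linarith
  rw [h5, abs_neg] at h4
  have h6 := (hz m).2
  have h7 : 0 < |z m| := abs_pos.2 (hz m).1
  linarith

/-- There is a rational functional vanishing at `1` that does not vanish on all the subseries of any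
rapidly decreasing series. -/
theorem exists_f : ∃ f : ℝ →ₗ[ℚ] ℚ, f 1 = 0 ∧ (∃ h, f h = 1) ∧
    ∀ z : ℕ → ℝ, Fast z → ∃ A : Set ℕ, f (∑' m, sub z A m) = 1 := by
  have hne : Fast fun m => (1 / 3 : ℝ) ^ m := by
    intro m
    refine ⟨by positivity, ?_⟩
    show |(1 / 3 : ℝ) ^ (m + 1)| ≤ |(1 / 3 : ℝ) ^ m| / 3
    rw [pow_succ, abs_mul]
    have : |(1 / 3 : ℝ)| = 1 / 3 := abs_of_pos (by norm_num)
    rw [this]
    linarith [abs_nonneg ((1 / 3 : ℝ) ^ m)]
  have : Nonempty {z : ℕ → ℝ // Fast z} := ⟨⟨_, hne⟩⟩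
  obtain ⟨f, hf1, hf2⟩ := exists_functional (ι := {z : ℕ → ℝ // Fast z}) (by
      refine (Cardinal.mk_subtype_le _).trans ?_
      rw [← Cardinal.power_def, Cardinal.mk_real, Cardinal.mk_nat, Cardinal.continuum_power_aleph0])
    (fun z => range fun A : Set ℕ => ∑' m, sub z.1 A m) (by
      intro z
      rw [Cardinal.mk_range_eq _ (sub_inj z.2), Cardinal.mk_set, Cardinal.mk_nat,
        Cardinal.two_power_aleph0])
  refine ⟨f, hf1, ?_, ?_⟩
  · obtain ⟨x, -, hx⟩ := hf2 ⟨_, hne⟩
    exact ⟨x, hx⟩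
  · intro z hz
    obtain ⟨x, ⟨A, hA⟩, hx⟩ := hf2 ⟨z, hz⟩
    exact ⟨A, by rw [← hx, ← hA]⟩

/-- The kernel of a rational functional meets all dense `G_δ` sets. -/
theorem ker_inter {f : ℝ →ₗ[ℚ] ℚ} (hf : ∃ h, f h = 1) {ι : Type} [Countable ι] (G : ι → Set ℝ)
    (ho : ∀ i, IsOpen (G i)) (hd : ∀ i, Dense (G i)) : ∃ x, f x = 0 ∧ ∀ i, x ∈ G i := by
  obtain ⟨h, hh⟩ := hf
  have h1 : Dense (⋂ p : ι × ℚ, (fun x : ℝ => x - p.2 • h) ⁻¹' (G p.1)) := by
    refine dense_iInter_of_isOpen (fun p => ?_) (fun p => ?_)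
    · exact (ho p.1).preimage (continuous_id.sub continuous_const)
    · exact (hd p.1).preimage (Homeomorph.subRight (p.2 • h)).isOpenMap
  obtain ⟨x, hx⟩ := h1.nonempty
  refine ⟨x - f x • h, ?_, fun i => ?_⟩
  · rw [map_sub, map_smul, hh, smul_eq_mul, mul_one, sub_self]
  · exact mem_iInter.1 hx (i, f x)

/-! ## The main argument -/

instance circleNontrivial : Nontrivial (AddCircle (1 : ℝ)) := by
  refine ⟨((1 / 2 : ℝ) : AddCircle (1 : ℝ)), 0, ?_⟩
  intro h
  rw [AddCircle.coe_eq_zero_iff] at h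
  obtain ⟨n, hn⟩ := h
  have h1 : (n : ℝ) = 1 / 2 := by simpa using hn
  have h2 : (2 * n : ℝ) = 1 := by linarith
  have h3 : (2 * n : ℤ) = 1 := by exact_mod_cast h2
  omega

theorem norm_coe_le (r : ℝ) : ‖(r : AddCircle (1 : ℝ))‖ ≤ |r| := by
  rw [UnitAddCircle.norm_eq]
  have := round_le r 0
  simpa using this

/-- Thresholds. -/
theorem exists_threshold {S : Set ℕ} {u : ℕ → ℝ} (h : Tendsto u (atTop ⊓ 𝓟 Sᶜ) (𝓝 0)) {ε : ℝ}
    (hε : 0 < ε) : ∃ N, ∀ n ≥ N, n ∉ S → u n ≤ ε := by
  have h1 := h.eventually (gt_mem_nhds hε)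
  rw [eventually_inf_principal, eventually_atTop] at h1
  obtain ⟨N, hN⟩ := h1
  exact ⟨N, fun n hn hnS => (hN n hn hnS).le⟩

theorem main {f : ℝ →ₗ[ℚ] ℚ} (_hf1 : f 1 = 0) (hfh : ∃ h, f h = 1)
    (hfz : ∀ z : ℕ → ℝ, Fast z → ∃ A : Set ℕ, f (∑' m, sub z A m) = 1)
    {I : Set (Set ℕ)} (hI : IsIdeal I) (a : ℕ → ℤ)
    (hH : ∀ x : ℝ, f x = 0 → (x : AddCircle (1 : ℝ)) ∈ Hstar a I) :
    ∃ y : ℝ, f y ≠ 0 ∧ (y : AddCircle (1 : ℝ)) ∈ Hstar a I := by
  classical
  -- an irrational point
  obtain ⟨x, hx0, hxq⟩ := ker_inter hfh (fun q : ℚ => ({(q : ℝ)} : Set ℝ)ᶜ)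
    (fun q => isOpen_compl_singleton) (fun q => dense_compl_singleton _)
  have hirr : Irrational x := by
    rintro ⟨q, hq⟩
    exact hxq q (by rw [hq]; rfl)
  set t : AddCircle (1 : ℝ) := (x : AddCircle (1 : ℝ)) with ht
  obtain ⟨S, hS, hSt⟩ := hH x hx0
  rw [tendsto_zero_iff_norm_tendsto_zero] at hSt
  -- the thresholds for `t`
  have hN : ∀ j : ℕ, ∃ N, ∀ n ≥ N, n ∉ S → ‖a n • t‖ ≤ (1 / 2) ^ j / ((j : ℝ) + 1) ^ 2 :=
    fun j => exists_threshold hSt (by positivity)
  choose N hN using hN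
  let K : ℕ → ℕ := fun j => j + ∑ i ∈ Finset.range (j + 1), N i
  have hKmono : Monotone K := by
    intro i j hij
    have : ∑ l ∈ Finset.range (i + 1), N l ≤ ∑ l ∈ Finset.range (j + 1), N l :=
      Finset.sum_le_sum_of_subset (Finset.range_mono (by omega))
    simp only [K]
    omega
  have hKj : ∀ j, j ≤ K j := fun j => Nat.le_add_right _ _
  have hKN : ∀ j, N j ≤ K j := fun j => by
    have : N j ≤ ∑ i ∈ Finset.range (j + 1), N i :=
      Finset.single_le_sum (f := N) (fun _ _ => Nat.zero_le _) (Finset.self_mem_range_succ j)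
    simp only [K]
    omega
  let D : ℕ → ℝ := fun j => 1 + ∑ n ∈ Finset.range (K j), |(a n : ℝ)|
  have hD : ∀ j, 1 ≤ D j := fun j => by
    have : 0 ≤ ∑ n ∈ Finset.range (K j), |(a n : ℝ)| := Finset.sum_nonneg fun _ _ => abs_nonneg _
    simp only [D]
    linarith
  have hDa : ∀ j, ∀ n < K j, |(a n : ℝ)| ≤ D j := fun j n hn => by
    have : |(a n : ℝ)| ≤ ∑ n ∈ Finset.range (K j), |(a n : ℝ)| :=
      Finset.single_le_sum (f := fun n => |(a n : ℝ)|) (fun _ _ => abs_nonneg _)
        (Finset.mem_range.2 hn)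
    simp only [D]
    linarith
  let τ : ℕ → ℝ := fun j => (1 / 2) ^ j / D j
  have hτ : ∀ j, 0 < τ j := fun j => div_pos (by positivity) (by linarith [hD j])
  -- the dense `G_δ` set
  let G : ℕ ⊕ ℤ → Set (AddCircle (1 : ℝ)) := Sum.elim
    (fun M => ⋃ j : {j : ℤ // M ≤ j.natAbs}, Metric.ball (j.1 • t) (τ j.1.natAbs))
    (fun j => {j • t}ᶜ)
  have hGo : ∀ i, IsOpen (G i) := by
    rintro (M | j)
    · exact isOpen_iUnion fun j => Metric.isOpen_ball
    · exact isOpen_compl_singleton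
  have hGd : ∀ i, Dense (G i) := by
    rintro (M | j)
    · have h1 : DenseRange fun j : ℤ => j • t := by
        rw [ht, AddCircle.denseRange_zsmul_coe_iff, div_one]
        exact hirr
      have h2 : Dense (range (fun j : ℤ => j • t) \ (fun j : ℤ => j • t) '' {j | j.natAbs < M}) := by
        refine Dense.sdiff_finite h1 (Set.Finite.image _ ?_)
        refine (Set.finite_Icc (-(M : ℤ)) M).subset fun j hj => ?_
        have : j.natAbs < M := hj
        rw [mem_Icc]
        omega
      refine h2.mono ?_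
      rintro _ ⟨⟨j, rfl⟩, hj⟩
      have hj' : M ≤ j.natAbs := by
        by_contra hcon
        exact hj ⟨j, not_le.1 hcon, rfl⟩
      exact mem_iUnion.2 ⟨⟨j, hj'⟩, Metric.mem_ball_self (hτ _)⟩
    · exact dense_compl_singleton _
  obtain ⟨x', hx'0, hx'G⟩ := ker_inter hfh (fun i => ((↑) : ℝ → AddCircle (1 : ℝ)) ⁻¹' G i)
    (fun i => (hGo i).preimage (AddCircle.continuous_mk' 1))
    (fun i => (hGd i).preimage QuotientAddGroup.isOpenMap_coe)
  set t' : AddCircle (1 : ℝ) := (x' : AddCircle (1 : ℝ)) with ht'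
  have happ : ∀ M : ℕ, ∃ j : ℤ, M ≤ j.natAbs ∧ ‖t' - j • t‖ < τ j.natAbs := by
    intro M
    obtain ⟨⟨j, hj⟩, hj'⟩ := mem_iUnion.1 (hx'G (Sum.inl M))
    refine ⟨j, hj, ?_⟩
    rw [← dist_eq_norm]
    exact hj'
  have hne : ∀ j : ℤ, 0 < ‖t' - j • t‖ := by
    intro j
    rw [norm_pos_iff, sub_ne_zero]
    exact hx'G (Sum.inr j)
  obtain ⟨S', hS', hSt'⟩ := hH x' hx'0
  rw [tendsto_zero_iff_norm_tendsto_zero] at hSt'
  have hL : ∀ m : ℕ, ∃ L, ∀ n ≥ L, n ∉ S' → ‖a n • t'‖ ≤ 1 / ((m : ℝ) + 1) ^ 2 :=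
    fun m => exists_threshold hSt' (by positivity)
  choose L hL using hL
  -- the sparse sequence
  have hstep : ∀ (m : ℕ) (p : ℤ), ∃ q : ℤ, p.natAbs < q.natAbs ∧ L (m + 1) ≤ q.natAbs ∧
      (1 / 2 : ℝ) ^ q.natAbs ≤ ‖t' - p • t‖ / 3 ∧ ‖t' - q • t‖ < τ q.natAbs := by
    intro m p
    obtain ⟨M₀, hM₀⟩ := exists_pow_lt_of_lt_one (show 0 < ‖t' - p • t‖ / 3 by
      have := hne p; positivity) (show (1 / 2 : ℝ) < 1 by norm_num)
    obtain ⟨q, hq1, hq2⟩ := happ (p.natAbs + 1 + L (m + 1) + M₀)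
    refine ⟨q, by omega, by omega, ?_, hq2⟩
    exact (pow_le_pow_of_le_one (by norm_num) (by norm_num) (by omega)).trans hM₀.le
  choose nxt hnxt1 hnxt2 hnxt3 hnxt4 using hstep
  obtain ⟨p₀, hp₀1, hp₀2⟩ := happ (L 0)
  let J : ℕ → ℤ := fun m => Nat.rec p₀ (fun m p => nxt m p) m
  have hJs : ∀ m, J (m + 1) = nxt m (J m) := fun m => rfl
  have hJmono : StrictMono fun m => (J m).natAbs := strictMono_nat_of_lt_succ fun m => by
    rw [hJs]; exact hnxt1 m (J m)
  have hJL : ∀ m, L m ≤ (J m).natAbs := by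
    intro m
    cases m with
    | zero => exact hp₀1
    | succ m => rw [hJs]; exact hnxt2 m (J m)
  have hJτ : ∀ m, ‖t' - J m • t‖ < τ (J m).natAbs := by
    intro m
    cases m with
    | zero => exact hp₀2
    | succ m => rw [hJs]; exact hnxt4 m (J m)
  have hJm : ∀ m, m ≤ (J m).natAbs := fun m => hJmono.id_le m
  -- the real lifts
  let g : ℕ → ℝ := fun m => x' - (Int.cast (J m) : ℝ) * x
  let z : ℕ → ℝ := fun m => g m - (Int.cast (round (g m)) : ℝ)
  have hzc : ∀ m, (z m : AddCircle (1 : ℝ)) = t' - J m • t := by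
    intro m
    have h1 : (((Int.cast (round (g m)) : ℝ)) : AddCircle (1 : ℝ)) = 0 := by
      rw [AddCircle.coe_eq_zero_iff]
      exact ⟨round (g m), by simp⟩
    have h2 : (Int.cast (J m) : ℝ) * x = (J m) • x := by simp
    simp only [z]
    rw [AddCircle.coe_sub, h1, sub_zero]
    simp only [g]
    rw [AddCircle.coe_sub, h2, AddCircle.coe_zsmul]
  have hzn : ∀ m, |z m| = ‖t' - J m • t‖ := by
    intro m
    rw [← hzc, UnitAddCircle.norm_eq]
    simp only [z]
    rw [round_sub_intCast, sub_self, Int.cast_zero, sub_zero]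
  have hfast : Fast z := by
    intro m
    constructor
    · have := hne (J m)
      rw [← hzn] at this
      exact abs_pos.1 this
    · rw [hzn m, hzn (m + 1)]
      have h1 := hnxt3 m (J m)
      have h2 := hJτ (m + 1)
      have h3 : τ (J (m + 1)).natAbs ≤ (1 / 2) ^ (J (m + 1)).natAbs :=
        div_le_self (by positivity) (hD _)
      rw [← hJs] at h1
      linarith
  obtain ⟨A, hA⟩ := hfz z hfast
  refine ⟨∑' m, sub z A m, by rw [hA]; exact one_ne_zero, S ∪ S', hI.union _ hS _ hS', ?_⟩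
  -- convergence
  have key : ∀ M : ℕ, 1 ≤ M → ∀ n, n ∉ S ∪ S' → K (J (M - 1)).natAbs ≤ n → n < K (J M).natAbs →
      ‖a n • ((∑' m, sub z A m : ℝ) : AddCircle (1 : ℝ))‖ ≤ 1 / M + 4 * (1 / 2) ^ M := by
    intro M hM n hnS hn1 hn2
    have hnS1 : n ∉ S := fun h => hnS (Or.inl h)
    have hnS2 : n ∉ S' := fun h => hnS (Or.inr h)
    have htail := tail_bound hfast (sub_le z A) M
    have hsummable : Summable (sub z A) := by
      have := (tail_bound hfast (sub_le z A) 0).1
      simpa using this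
    rw [← hsummable.sum_add_tsum_nat_add M, AddCircle.coe_add, smul_add]
    refine (norm_add_le _ _).trans ?_
    -- the tail
    have h1 : ‖a n • ((∑' m, sub z A (m + M) : ℝ) : AddCircle (1 : ℝ))‖ ≤ 3 / 2 * (1 / 2) ^ M := by
      refine (norm_zsmul_le _ _).trans ?_
      rw [Int.norm_eq_abs]
      have e1 : ‖((∑' m, sub z A (m + M) : ℝ) : AddCircle (1 : ℝ))‖ ≤ 3 / 2 * τ (J M).natAbs := by
        refine (norm_coe_le _).trans (htail.2.trans ?_)
        rw [hzn]
        have := hJτ M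
        linarith
      have e2 : |(a n : ℝ)| ≤ D (J M).natAbs := hDa _ n hn2
      have e3 : D (J M).natAbs * τ (J M).natAbs = (1 / 2) ^ (J M).natAbs := by
        simp only [τ]
        rw [mul_div_cancel₀]
        have := hD (J M).natAbs
        linarith
      have e4 : (1 / 2 : ℝ) ^ (J M).natAbs ≤ (1 / 2) ^ M :=
        pow_le_pow_of_le_one (by norm_num) (by norm_num) (hJm M)
      calc |(a n : ℝ)| * ‖((∑' m, sub z A (m + M) : ℝ) : AddCircle (1 : ℝ))‖
          ≤ D (J M).natAbs * (3 / 2 * τ (J M).natAbs) :=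
            mul_le_mul e2 e1 (norm_nonneg _) (by linarith [hD (J M).natAbs])
        _ = 3 / 2 * (D (J M).natAbs * τ (J M).natAbs) := by ring
        _ ≤ 3 / 2 * (1 / 2) ^ M := by rw [e3]; linarith
    -- the finite sum
    have h2 : ‖a n • ((∑ m ∈ Finset.range M, sub z A m : ℝ) : AddCircle (1 : ℝ))‖ ≤
        1 / M + 2 * (1 / 2) ^ M := by
      have e0 : ((∑ m ∈ Finset.range M, sub z A m : ℝ) : AddCircle (1 : ℝ)) =
          ∑ m ∈ Finset.range M, ((sub z A m : ℝ) : AddCircle (1 : ℝ)) :=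
        map_sum (QuotientAddGroup.mk' (AddSubgroup.zmultiples (1 : ℝ))) _ _
      rw [e0, Finset.smul_sum]
      refine (norm_sum_le _ _).trans ?_
      set j₁ := (J (M - 1)).natAbs with hj₁
      have hMj : M ≤ j₁ + 1 := by
        have := hJm (M - 1)
        omega
      have hb : ∀ m ∈ Finset.range M, ‖a n • ((sub z A m : ℝ) : AddCircle (1 : ℝ))‖ ≤
          ‖a n • t'‖ + j₁ * ‖a n • t‖ := by
        intro m hm
        rw [Finset.mem_range] at hm
        unfold sub
        split_ifs with hmA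
        · rw [hzc, smul_sub]
          refine (norm_sub_le _ _).trans (add_le_add le_rfl ?_)
          rw [smul_comm]
          refine (norm_zsmul_le _ _).trans ?_
          refine mul_le_mul_of_nonneg_right ?_ (norm_nonneg _)
          rw [Int.norm_eq_abs]
          have h3 : (J m).natAbs ≤ j₁ := hJmono.monotone (by omega : m ≤ M - 1)
          have h4 : |(Int.cast (J m) : ℝ)| = (Nat.cast (J m).natAbs : ℝ) := by
            rw [← Int.cast_abs, Int.abs_eq_natAbs, Int.cast_natCast]
          rw [h4]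
          exact_mod_cast h3
        · rw [AddCircle.coe_zero, smul_zero, norm_zero]
          positivity
      refine (Finset.sum_le_sum hb).trans ?_
      rw [Finset.sum_const, Finset.card_range, nsmul_eq_mul, mul_add]
      have hMpos : (0 : ℝ) < M := by exact_mod_cast hM
      have e1 : ‖a n • t'‖ ≤ 1 / (M : ℝ) ^ 2 := by
        have h3 := hL (M - 1) n ((hJL (M - 1)).trans ((hKj _).trans hn1)) hnS2
        have h4 : ((M - 1 : ℕ) : ℝ) + 1 = M := by
          rw [Nat.cast_sub hM]; simp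
        rw [h4] at h3
        exact h3
      have e2 : ‖a n • t‖ ≤ (1 / 2) ^ j₁ / ((j₁ : ℝ) + 1) ^ 2 :=
        hN j₁ n ((hKN _).trans hn1) hnS1
      have e3 : (M : ℝ) * ‖a n • t'‖ ≤ 1 / M := by
        calc (M : ℝ) * ‖a n • t'‖ ≤ M * (1 / (M : ℝ) ^ 2) := mul_le_mul_of_nonneg_left e1 hMpos.le
          _ = 1 / M := by field_simp
      have hMj' : (M : ℝ) ≤ j₁ + 1 := by exact_mod_cast hMj
      have e4 : (M : ℝ) * (j₁ * ‖a n • t‖) ≤ (1 / 2) ^ j₁ := by
        have h5 : (0 : ℝ) ≤ j₁ := Nat.cast_nonneg _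
        calc (M : ℝ) * (j₁ * ‖a n • t‖) ≤ (j₁ + 1) * ((j₁ + 1) * ((1 / 2) ^ j₁ / ((j₁ : ℝ) + 1) ^ 2)) := by
              refine mul_le_mul hMj' ?_ (by positivity) (by positivity)
              exact mul_le_mul (by linarith) e2 (norm_nonneg _) (by positivity)
          _ = (1 / 2) ^ j₁ := by field_simp
      have e5 : (1 / 2 : ℝ) ^ j₁ ≤ 2 * (1 / 2) ^ M := by
        have h6 : (1 / 2 : ℝ) ^ (j₁ + 1) ≤ (1 / 2) ^ M :=
          pow_le_pow_of_le_one (by norm_num) (by norm_num) hMj
        rw [pow_succ] at h6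
        linarith
      linarith
    have h3 : (0 : ℝ) < (1 / 2) ^ M := by positivity
    linarith
  rw [tendsto_zero_iff_norm_tendsto_zero, Metric.tendsto_nhds]
  intro ε hε
  rw [eventually_inf_principal, eventually_atTop]
  -- the bound tends to zero
  have hlim : Tendsto (fun M : ℕ => (1 : ℝ) / M + 4 * (1 / 2) ^ M) atTop (𝓝 (0 + 4 * 0)) :=
    tendsto_one_div_atTop_nhds_zero_nat.add
      ((tendsto_pow_atTop_nhds_zero_of_lt_one (by norm_num) (by norm_num)).const_mul 4)
  rw [mul_zero, add_zero] at hlim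
  obtain ⟨M₁, hM₁⟩ := eventually_atTop.1 (hlim.eventually (gt_mem_nhds hε))
  refine ⟨K (J M₁).natAbs, fun n hn hnS => ?_⟩
  have hex : ∃ M, n < K (J M).natAbs :=
    ⟨n + 1, lt_of_lt_of_le (Nat.lt_succ_self n) ((hJm (n + 1)).trans (hKj _))⟩
  set M := Nat.find hex with hMdef
  have hM1 : n < K (J M).natAbs := Nat.find_spec hex
  have hMM : M₁ < M := by
    by_contra hcon
    have : K (J M).natAbs ≤ K (J M₁).natAbs := hKmono (hJmono.monotone (not_lt.1 hcon))
    omega
  have hM2 : K (J (M - 1)).natAbs ≤ n := by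
    have := Nat.find_min hex (m := M - 1) (by omega)
    exact not_lt.1 this
  have h1 := key M (by omega) n hnS hM2 hM1
  rw [Real.dist_eq, sub_zero, abs_of_nonneg (norm_nonneg _)]
  exact h1.trans_lt (hM₁ M hMM.le)

/-- Some subgroup of the circle is not of the form `Hstar a I` for any ideal `I` on the natural
numbers and any sequence `a` of integers. -/
theorem result : ∃ H : AddSubgroup (AddCircle (1 : ℝ)), ∀ I : Set (Set ℕ), IsIdeal I →
    ∀ a : ℕ → ℤ, (H : Set (AddCircle (1 : ℝ))) ≠ Hstar a I := by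
  obtain ⟨f, hf1, hfh, hfz⟩ := exists_f
  let H : AddSubgroup (AddCircle (1 : ℝ)) :=
    AddSubgroup.map (QuotientAddGroup.mk' (AddSubgroup.zmultiples (1 : ℝ)))
      (f.toAddMonoidHom.ker)
  have hH : ∀ x : ℝ, (x : AddCircle (1 : ℝ)) ∈ H ↔ f x = 0 := by
    intro x
    constructor
    · rintro ⟨x', hx', heq⟩
      have hx'' : f x' = 0 := hx'
      have h1 : ((x' : ℝ) : AddCircle (1 : ℝ)) = (x : AddCircle (1 : ℝ)) := heq
      have h2 : ((x' - x : ℝ) : AddCircle (1 : ℝ)) = 0 := by
        rw [AddCircle.coe_sub, h1, sub_self]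
      rw [AddCircle.coe_eq_zero_iff] at h2
      obtain ⟨n, hn⟩ := h2
      have h3 : f (x' - x) = 0 := by
        rw [← hn, map_zsmul, hf1, smul_zero]
      rw [map_sub, hx'', zero_sub, neg_eq_zero] at h3
      exact h3
    · intro hx
      exact ⟨x, hx, rfl⟩
  refine ⟨H, fun I hI a heq => ?_⟩
  obtain ⟨y, hy1, hy2⟩ := main hf1 hfh hfz hI a (fun x hx => by
    rw [← heq]; exact (hH x).2 hx)
  rw [← heq] at hy2
  exact hy1 ((hH y).1 hy2)

end Pool.Agent.Results.MP_8013b9_lc.NotStarCharacterized
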